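import Mathlib
import Pool.Agent.K6.H78.GN.Mc

/-!
Manin's conjecture over the rational numbers for the projective bundles `V = P(S₁ ⊠ S₂)` over the
products of Grassmannians `Gr(r, M) × Gr(r, N)`, where `S₁` and `S₂` are the tautological subbundles
of rank `r`, `2 ≤ r < M` and `r < N`: all adelic anticanonical heights, on an explicit open subset.

A point of `V` is a triple of an `M × N` matrix `T ≠ 0` up to scalars and of subspaces `W₁` of `K ^ M`
and `W₂` of `K ^ N` of dimension `r`, such that the columns of `T` are in `W₁` and its rows are in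
`W₂`.  `V` is smooth of Picard number `3` and dimension `r (M - r) + r (N - r) + r ^ 2 - 1`; its
anticanonical bundle is `r ^ 2` times the line bundle `O(1)` plus `M - r` and `N - r` times the Plücker
bundles of the two Grassmannians, so `V` is Fano.  It is a resolution of the singularities of the
variety of the matrices of rank at most `r`.  The open subset is given by `rank T = r`; there `W₁` and
`W₂` are the column space and the row space of `T`.

* `minors b`: the Plücker coordinates of the row space of `b`: the determinants of the matrices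
  formed by `r` columns of `b`.
* `entries T`: the entries of the matrix `T`.
* `OnV r K x y t`: `x`, `y` and `t` are the coordinates of a point of `V(K)`; a matrix with columns in
  the row space of `a` and rows in the row space of `b` is `aᵀ * q * b` for some `r × r` matrix `q`.
* `LocalFactor r M N φ`: a positive continuous function on `V(K)`, written as a function of the
  coordinate vectors, which does not change if the vectors are multiplied by nonzero scalars.
* `height e₁ e₂ S φ₀ φ P`: the adelic height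
  `H(W₁) ^ e₁ H(W₂) ^ e₂ H(T) ^ (r ^ 2) φ₀(P) ∏_{p ∈ S} φ_p(P)`, where `H` is the usual height of a
  rational point of the projective space (of Mathlib).  For `e₁ = M - r` and `e₂ = N - r` these are
  the heights of all adelic metrics on the anticanonical bundle of `V`.

The theorem: for every such height the number of points of height at most `B` of `V(ℚ)` for which
the matrix has rank `r` is asymptotic to `c B (log B) ^ 2` with some `c > 0`.
-/

namespace Pool.Agent.Results.MP_1acd66_nt.MatricesRowAndColumnSpaces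

open Filter Topology

variable {r M N : ℕ}

/-- the Plücker coordinates of the row space -/
def minors {r N : ℕ} {K : Type*} [CommRing K] (b : Matrix (Fin r) (Fin N) K) :
    (Fin r → Fin N) → K := fun f => (b.submatrix id f).det

/-- the entries of a matrix -/
def entries {K : Type*} (T : Matrix (Fin M) (Fin N) K) : Fin M × Fin N → K := fun p => T p.1 p.2

/-- the coordinate vectors of the points of `V(K)` -/
def OnV (r : ℕ) (K : Type*) [Field K] (x : (Fin r → Fin M) → K) (y : (Fin r → Fin N) → K)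
    (t : Fin M × Fin N → K) : Prop :=
  x ≠ 0 ∧ y ≠ 0 ∧ t ≠ 0 ∧ ∃ (a : Matrix (Fin r) (Fin M) K) (b : Matrix (Fin r) (Fin N) K)
    (q : Matrix (Fin r) (Fin r) K), x = minors a ∧ y = minors b ∧ t = entries (a.transpose * q * b)

/-- positive continuous functions on `V(K)` -/
structure LocalFactor (r M N : ℕ) {K : Type*} [NormedField K]
    (φ : ((Fin r → Fin M) → K) → ((Fin r → Fin N) → K) → (Fin M × Fin N → K) → ℝ) : Prop where
  continuous : ContinuousOn
    (fun z : ((Fin r → Fin M) → K) × ((Fin r → Fin N) → K) × (Fin M × Fin N → K) =>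
      φ z.1 z.2.1 z.2.2) {z | OnV r K z.1 z.2.1 z.2.2}
  positive : ∀ x y t, OnV r K x y t → 0 < φ x y t
  invariant : ∀ x y t, OnV r K x y t → ∀ c d e : K, c ≠ 0 → d ≠ 0 → e ≠ 0 →
    φ (c • x) (d • y) (e • t) = φ x y t

/-- extension of scalars -/
def ext (K : Type*) [Field K] {J : Type*} (v : J → ℚ) : J → K := fun i => (v i : K)

instance (p : Nat.Primes) : Fact (p : ℕ).Prime := ⟨p.2⟩

/-- the adelic anticanonical height -/
noncomputable def height (e₁ e₂ : ℕ) (S : Finset Nat.Primes)
    (φ₀ : ((Fin r → Fin M) → ℝ) → ((Fin r → Fin N) → ℝ) → (Fin M × Fin N → ℝ) → ℝ)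
    (φ : ∀ p : Nat.Primes, ((Fin r → Fin M) → ℚ_[p]) → ((Fin r → Fin N) → ℚ_[p]) →
      (Fin M × Fin N → ℚ_[p]) → ℝ)
    (P : Projectivization ℚ ((Fin r → Fin M) → ℚ) × Projectivization ℚ ((Fin r → Fin N) → ℚ) ×
      Projectivization ℚ (Fin M × Fin N → ℚ)) : ℝ :=
  P.1.mulHeight ^ e₁ * P.2.1.mulHeight ^ e₂ * P.2.2.mulHeight ^ (r ^ 2) *
    (φ₀ (ext ℝ P.1.rep) (ext ℝ P.2.1.rep) (ext ℝ P.2.2.rep) *
      ∏ p ∈ S, φ p (ext ℚ_[p] P.1.rep) (ext ℚ_[p] P.2.1.rep) (ext ℚ_[p] P.2.2.rep))

/-- the points in terms of the general family -/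
theorem onV_iff {K : Type*} [Field K] {ρ : ℕ}
    (z : (∀ i : Bool, (Fin (ρ + 1) → Fin (K6.H78.GN.NF M N i)) → K) × (Fin M × Fin N → K)) :
    OnV (ρ + 1) K (z.1 true) (z.1 false) z.2 ↔
      z ∈ K6.H78.GN.Cn 1 (K6.H78.GN.rB ρ) (K6.H78.GN.NF M N) K6.H78.GN.kB K6.H78.GN.ΓB
        (K6.H78.GN.eB M N) K := by
  constructor
  · rintro ⟨h1, h2, h3, a, b, q, h4, h5, h6⟩
    obtain ⟨q', hq'⟩ := K6.H78.GN.mB_surj q
    refine ⟨fun i => ?_, h3, fun i => match i with
      | true => a
      | false => b, q', fun i => ?_, h6.trans (funext fun y => ?_)⟩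
    · cases i with
      | true => exact h1
      | false => exact h2
    · cases i with
      | true => exact h4
      | false => exact h5
    · rw [K6.H78.GN.tj_B, hq']
      rfl
  · rintro ⟨h1, h2, b, q', h3, h4⟩
    exact ⟨h1 true, h1 false, h2, b true, b false, K6.H78.GN.mB q', h3 true, h3 false,
      h4.trans (funext fun y => K6.H78.GN.tj_B q' b y)⟩

theorem lf_of {K : Type*} [NormedField K] {ρ : ℕ}
    {φ : ((Fin (ρ + 1) → Fin M) → K) → ((Fin (ρ + 1) → Fin N) → K) → (Fin M × Fin N → K) → ℝ}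
    (h : LocalFactor (ρ + 1) M N φ) :
    K6.H78.GN.LF 1 (K6.H78.GN.rB ρ) (K6.H78.GN.NF M N) K6.H78.GN.kB K6.H78.GN.ΓB
      (K6.H78.GN.eB M N) (fun x t => φ (x true) (x false) t) := by
  refine ⟨?_, fun x hx => h.2 _ _ _ ((onV_iff x).2 hx), fun x hx s t hs ht =>
    h.3 _ _ _ ((onV_iff x).2 hx) _ _ _ (hs true) (hs false) ht⟩
  have h1 : Continuous fun x : (∀ i : Bool, (Fin (ρ + 1) → Fin (K6.H78.GN.NF M N i)) → K) ×
      (Fin M × Fin N → K) => ((x.1 true : (Fin (ρ + 1) → Fin M) → K),
        (x.1 false : (Fin (ρ + 1) → Fin N) → K), x.2) := by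
    refine ((continuous_apply true).comp continuous_fst).prodMk
      (((continuous_apply false).comp continuous_fst).prodMk continuous_snd)
  exact h.1.comp h1.continuousOn fun x hx => (onV_iff x).2 hx

theorem result (hr : 2 ≤ r) (hrM : r < M) (hrN : r < N) (e₁ e₂ : ℕ) (he₁ : M = r + e₁)
    (he₂ : N = r + e₂) (S : Finset Nat.Primes)
    (φ₀ : ((Fin r → Fin M) → ℝ) → ((Fin r → Fin N) → ℝ) → (Fin M × Fin N → ℝ) → ℝ)
    (h₀ : LocalFactor r M N φ₀)
    (φ : ∀ p : Nat.Primes, ((Fin r → Fin M) → ℚ_[p]) → ((Fin r → Fin N) → ℚ_[p]) →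
      (Fin M × Fin N → ℚ_[p]) → ℝ)
    (h : ∀ p ∈ S, LocalFactor r M N (φ p)) :
    ∃ c : ℝ, 0 < c ∧ Tendsto (fun B : ℝ =>
      (({P : Projectivization ℚ ((Fin r → Fin M) → ℚ) × Projectivization ℚ ((Fin r → Fin N) → ℚ) ×
          Projectivization ℚ (Fin M × Fin N → ℚ) |
        OnV r ℚ P.1.rep P.2.1.rep P.2.2.rep ∧
          (Matrix.of fun i j => P.2.2.rep (i, j)).rank = r ∧
          height e₁ e₂ S φ₀ φ P ≤ B} : Set _).ncard : ℝ) / (B * Real.log B ^ 2)) atTop (𝓝 c) := by
  obtain ⟨ρ, rfl⟩ : ∃ ρ, r = ρ + 1 := ⟨r - 1, by omega⟩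
  obtain ⟨c, hc, hlim⟩ := K6.H78.GN.main_B (ρ := ρ) (by omega) (N := K6.H78.GN.NF M N)
    (e := fun i => cond i e₁ e₂) (fun i => by cases i <;> assumption)
    (fun i => by
      cases i with
      | true => show 1 ≤ e₁; omega
      | false => show 1 ≤ e₂; omega) (K6.H78.GN.eB M N) S
    (fun x t => φ₀ (x true) (x false) t) (lf_of h₀) (fun p x t => φ p (x true) (x false) t)
    fun p hp => lf_of (h p hp)
  refine ⟨c, hc, hlim.congr fun B => ?_⟩
  congr 2
  apply K6.H78.GN.ncard_equiv (K6.H78.GN.EP ρ M N)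
  intro P
  rw [Set.mem_setOf_eq, Set.mem_setOf_eq]
  have hh : K6.H78.GN.Hp 1 (K6.H78.GN.rB ρ) (K6.H78.GN.NF M N) K6.H78.GN.kB (fun i => cond i e₁ e₂)
      K6.H78.GN.ΓB S (fun x t => φ₀ (x true) (x false) t) (fun p x t => φ p (x true) (x false) t) P =
      height e₁ e₂ S φ₀ φ (K6.H78.GN.EP ρ M N P) := by
    unfold K6.H78.GN.Hp height
    rw [Fintype.prod_bool, K6.H78.GN.card_OB, one_mul, sq]
    rfl
  rw [hh, ← and_assoc]
  refine and_congr ?_ Iff.rfl
  constructor
  · rintro ⟨b, q, h1, h2, h3⟩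
    have hz := (onV_iff (K := ℚ) (fun i => (P.1 i).rep, P.2.rep)).2
      ⟨fun i => (P.1 i).rep_nonzero, P.2.rep_nonzero, b, q, h1, h2⟩
    refine ⟨hz, ?_⟩
    have h4 : (Matrix.of fun i j => P.2.rep (i, j)) = (b true).transpose * K6.H78.GN.mB q * b false := by
      ext i j
      exact (congrFun h2 (i, j)).trans (K6.H78.GN.tj_B q b (i, j))
    have h5 : (Matrix.of fun i j => P.2.rep (i, j)).rank = ρ + 1 := by
      rw [h4]
      refine (K6.H78.GN.rank_B (r := ρ + 1) ?_ ?_).2 h3
      · rw [← h1 true]; exact (P.1 true).rep_nonzero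
      · rw [← h1 false]; exact (P.1 false).rep_nonzero
    exact h5
  · rintro ⟨hz, h5⟩
    obtain ⟨_, _, b, q, h1, h2⟩ := (onV_iff (K := ℚ) (fun i => (P.1 i).rep, P.2.rep)).1 hz
    refine ⟨b, q, h1, h2, ?_⟩
    have h4 : (Matrix.of fun i j => P.2.rep (i, j)) = (b true).transpose * K6.H78.GN.mB q * b false := by
      ext i j
      exact (congrFun h2 (i, j)).trans (K6.H78.GN.tj_B q b (i, j))
    have h6 : (Matrix.of fun i j => P.2.rep (i, j)).rank = ρ + 1 := h5
    rw [h4] at h6
    refine (K6.H78.GN.rank_B (r := ρ + 1) ?_ ?_).1 h6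
    · rw [← h1 true]; exact (P.1 true).rep_nonzero
    · rw [← h1 false]; exact (P.1 false).rep_nonzero

end Pool.Agent.Results.MP_1acd66_nt.MatricesRowAndColumnSpaces
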