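import Mathlib
import Pool.Agent.K6.H78.GN.Mt

/-!
Manin's conjecture over the rational numbers for the projective bundles `V = P(Sym² S)` over the
Grassmannians `Gr(r, N)`, where `S` is the tautological subbundle of rank `r`, `3 ≤ r < N`: all adelic
anticanonical heights, on an explicit open subset.

A point of `V` is a pair of a subspace `W` of dimension `r` in `K ^ N` and a symmetric `N × N` matrix
`T ≠ 0` up to scalars with rows in `W` (a quadratic form on the dual space of `W`).  `V` is smooth of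
Picard number `2`; its anticanonical bundle is `r (r + 1) / 2` times the line bundle `O(1)` plus
`e = N - r - 1` times the Plücker bundle of the Grassmannian, so `V` is Fano if `r + 1 < N` and weak
Fano if `r + 1 = N`.  It is a resolution of the singularities of the variety of the symmetric matrices
of rank at most `r`.  The open subset is given by `rank T = r`; there `W` is the row space of `T`.

* `minors b`: the Plücker coordinates of the row space of `b`: the determinants of the matrices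
  formed by `r` columns of `b`.
* `entries T`: the entries of the matrix `T`.
* `OnV r K x t`: `x` and `t` are the coordinates of a point of `V(K)`; a symmetric matrix with rows in
  the row space of `b` is `bᵀ * q * b` for some symmetric `r × r` matrix `q`.
* `LocalFactor r N φ`: a positive continuous function on `V(K)`, written as a function of the
  coordinate vectors, which does not change if the vectors are multiplied by nonzero scalars.
* `height e S φ₀ φ P`: the adelic height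
  `H(W) ^ e H(T) ^ (r (r + 1) / 2) φ₀(P) ∏_{p ∈ S} φ_p(P)`, where `H` is the usual height of a
  rational point of the projective space (of Mathlib).  For `e = N - r - 1` these are the heights of
  all adelic metrics on the anticanonical bundle of `V`.

The theorem: for every such height the number of points of height at most `B` of `V(ℚ)` for which
the matrix has rank `r` is asymptotic to `c B log B` with some `c > 0`.
-/

namespace Pool.Agent.Results.MP_1acd66_nt.SymmetricMatricesOfRank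

open Filter Topology

variable {r N : ℕ}

/-- the Plücker coordinates of the row space -/
def minors {K : Type*} [CommRing K] (b : Matrix (Fin r) (Fin N) K) :
    (Fin r → Fin N) → K := fun f => (b.submatrix id f).det

/-- the entries of a matrix -/
def entries {K : Type*} (T : Matrix (Fin N) (Fin N) K) : Fin N × Fin N → K := fun p => T p.1 p.2

/-- the coordinate vectors of the points of `V(K)` -/
def OnV (r : ℕ) (K : Type*) [Field K] (x : (Fin r → Fin N) → K) (t : Fin N × Fin N → K) : Prop :=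
  x ≠ 0 ∧ t ≠ 0 ∧ ∃ (b : Matrix (Fin r) (Fin N) K) (q : Matrix (Fin r) (Fin r) K),
    q.transpose = q ∧ x = minors b ∧ t = entries (b.transpose * q * b)

/-- positive continuous functions on `V(K)` -/
structure LocalFactor (r N : ℕ) {K : Type*} [NormedField K]
    (φ : ((Fin r → Fin N) → K) → (Fin N × Fin N → K) → ℝ) : Prop where
  continuous : ContinuousOn
    (fun z : ((Fin r → Fin N) → K) × (Fin N × Fin N → K) => φ z.1 z.2) {z | OnV r K z.1 z.2}
  positive : ∀ x t, OnV r K x t → 0 < φ x t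
  invariant : ∀ x t, OnV r K x t → ∀ c d : K, c ≠ 0 → d ≠ 0 → φ (c • x) (d • t) = φ x t

/-- extension of scalars -/
def ext (K : Type*) [Field K] {J : Type*} (v : J → ℚ) : J → K := fun i => (v i : K)

instance (p : Nat.Primes) : Fact (p : ℕ).Prime := ⟨p.2⟩

/-- the adelic anticanonical height -/
noncomputable def height (e : ℕ) (S : Finset Nat.Primes)
    (φ₀ : ((Fin r → Fin N) → ℝ) → (Fin N × Fin N → ℝ) → ℝ)
    (φ : ∀ p : Nat.Primes, ((Fin r → Fin N) → ℚ_[p]) → (Fin N × Fin N → ℚ_[p]) → ℝ)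
    (P : Projectivization ℚ ((Fin r → Fin N) → ℚ) × Projectivization ℚ (Fin N × Fin N → ℚ)) : ℝ :=
  P.1.mulHeight ^ e * P.2.mulHeight ^ (r * (r + 1) / 2) *
    (φ₀ (ext ℝ P.1.rep) (ext ℝ P.2.rep) * ∏ p ∈ S, φ p (ext ℚ_[p] P.1.rep) (ext ℚ_[p] P.2.rep))

/-- the points in terms of the general family -/
theorem onV_iff {K : Type*} [Field K] {ρ : ℕ}
    (z : (∀ i : Unit, (Fin (ρ + 1) → Fin (K6.H78.GN.NU N i)) → K) × (Fin N × Fin N → K)) :
    OnV (ρ + 1) K (z.1 ()) z.2 ↔
      z ∈ K6.H78.GN.Cn 1 (K6.H78.GN.rS ρ) (K6.H78.GN.NU N) K6.H78.GN.kS K6.H78.GN.ΓS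
        (K6.H78.GN.eS N) K := by
  constructor
  · rintro ⟨h1, h3, b, q, hq, h5, h6⟩
    obtain ⟨q', hq'⟩ := K6.H78.GN.mS_surj q hq
    refine ⟨fun i => h1, h3, fun _ => b, q', fun i => h5, h6.trans (funext fun y => ?_)⟩
    rw [K6.H78.GN.tj_S, hq']
    rfl
  · rintro ⟨h1, h2, b, q', h3, h4⟩
    exact ⟨h1 (), h2, b (), K6.H78.GN.mS q', K6.H78.GN.mS_symm q', h3 (),
      h4.trans (funext fun y => K6.H78.GN.tj_S q' b y)⟩

theorem lf_of {K : Type*} [NormedField K] {ρ : ℕ}
    {φ : ((Fin (ρ + 1) → Fin N) → K) → (Fin N × Fin N → K) → ℝ} (h : LocalFactor (ρ + 1) N φ) :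
    K6.H78.GN.LF 1 (K6.H78.GN.rS ρ) (K6.H78.GN.NU N) K6.H78.GN.kS K6.H78.GN.ΓS
      (K6.H78.GN.eS N) (fun x t => φ (x ()) t) := by
  refine ⟨?_, fun x hx => h.2 _ _ ((onV_iff x).2 hx), fun x hx s t hs ht =>
    h.3 _ _ ((onV_iff x).2 hx) _ _ (hs ()) ht⟩
  have h1 : Continuous fun x : (∀ i : Unit, (Fin (ρ + 1) → Fin (K6.H78.GN.NU N i)) → K) ×
      (Fin N × Fin N → K) => ((x.1 () : (Fin (ρ + 1) → Fin N) → K), x.2) :=
    ((continuous_apply ()).comp continuous_fst).prodMk continuous_snd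
  exact h.1.comp h1.continuousOn fun x hx => (onV_iff x).2 hx

theorem result (hr : 3 ≤ r) (hrN : r < N) (e : ℕ) (he : N = r + 1 + e) (S : Finset Nat.Primes)
    (φ₀ : ((Fin r → Fin N) → ℝ) → (Fin N × Fin N → ℝ) → ℝ) (h₀ : LocalFactor r N φ₀)
    (φ : ∀ p : Nat.Primes, ((Fin r → Fin N) → ℚ_[p]) → (Fin N × Fin N → ℚ_[p]) → ℝ)
    (h : ∀ p ∈ S, LocalFactor r N (φ p)) :
    ∃ c : ℝ, 0 < c ∧ Tendsto (fun B : ℝ =>
      (({P : Projectivization ℚ ((Fin r → Fin N) → ℚ) × Projectivization ℚ (Fin N × Fin N → ℚ) |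
        OnV r ℚ P.1.rep P.2.rep ∧ (Matrix.of fun i j => P.2.rep (i, j)).rank = r ∧
          height e S φ₀ φ P ≤ B} : Set _).ncard : ℝ) / (B * Real.log B)) atTop (𝓝 c) := by
  obtain ⟨ρ, rfl⟩ : ∃ ρ, r = ρ + 1 := ⟨r - 1, by omega⟩
  obtain ⟨c, hc, hlim⟩ := K6.H78.GN.main_S (ρ := ρ) (by omega) (N := K6.H78.GN.NU N)
    (e := fun _ => e) (fun i => hrN) (fun i => he.trans (by ring)) (K6.H78.GN.eS N) S
    (fun x t => φ₀ (x ()) t) (lf_of h₀) (fun p x t => φ p (x ()) t) fun p hp => lf_of (h p hp)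
  refine ⟨c, hc, hlim.congr fun B => ?_⟩
  congr 2
  apply K6.H78.GN.ncard_equiv (K6.H78.GN.EQ ρ N)
  intro P
  have hcard : 1 * Fintype.card (K6.H78.GN.OS ρ) = (ρ + 1) * (ρ + 1 + 1) / 2 := by
    have := K6.H78.GN.card_OS (ρ := ρ)
    rw [one_mul]
    apply Nat.eq_div_of_mul_eq_right (by norm_num)
    exact this
  have hh : K6.H78.GN.Hp 1 (K6.H78.GN.rS ρ) (K6.H78.GN.NU N) K6.H78.GN.kS (fun _ => e)
      K6.H78.GN.ΓS S (fun x t => φ₀ (x ()) t) (fun p x t => φ p (x ()) t) P =
      height e S φ₀ φ (K6.H78.GN.EQ ρ N P) := by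
    unfold K6.H78.GN.Hp height
    rw [Fintype.prod_unique, hcard]
    rfl
  show _ ∧ _ ↔ _ ∧ _ ∧ _
  rw [hh, ← and_assoc]
  refine and_congr ?_ Iff.rfl
  have key : ∀ (b : ∀ i : Unit, Matrix (Fin (ρ + 1)) (Fin (K6.H78.GN.NU N i)) ℚ)
      (q : Fin 1 → K6.H78.GN.OS ρ → ℚ), (∀ i, (P.1 i).rep = K6.H78.MR.pl (b i)) →
      P.2.rep = K6.H78.GN.tj (K6.H78.GN.eS N) q b →
      ((Matrix.of fun i j => P.2.rep (i, j)).rank = ρ + 1 ↔ (K6.H78.GN.mS q).det ≠ 0) := by
    intro b q h1 h2
    have h4 : (Matrix.of fun i j => P.2.rep (i, j)) = (b ()).transpose * K6.H78.GN.mS q * b () := by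
      ext i j
      exact (congrFun h2 (i, j)).trans (K6.H78.GN.tj_S q b (i, j))
    rw [h4]
    refine K6.H78.GN.rank_B (r := ρ + 1) ?_ ?_
    · rw [← h1 ()]; exact (P.1 ()).rep_nonzero
    · rw [← h1 ()]; exact (P.1 ()).rep_nonzero
  constructor
  · rintro ⟨b, q, h1, h2, h3⟩
    have hz := (onV_iff (K := ℚ) (fun i => (P.1 i).rep, P.2.rep)).2
      ⟨fun i => (P.1 i).rep_nonzero, P.2.rep_nonzero, b, q, h1, h2⟩
    exact ⟨hz, (key b q h1 h2).2 h3⟩
  · rintro ⟨hz, h5⟩
    obtain ⟨_, _, b, q, h1, h2⟩ := (onV_iff (K := ℚ) (fun i => (P.1 i).rep, P.2.rep)).1 hz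
    exact ⟨b, q, h1, h2, (key b q h1 h2).1 h5⟩

end Pool.Agent.Results.MP_1acd66_nt.SymmetricMatricesOfRank
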