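import Mathlib
import Pool.Agent.K6.H78.GN.Gh

/-!
Manin's conjecture over the rational numbers, with the removal of a thin set which is dense, for the
projective bundles

  `V = P(((⨂_i S_i ^ ⊗ k_i) ^ Γ) ^ m)`,   `m = ∑_i (r_i - 1)`,

over products of Grassmannians `∏_i Gr(r_i, N_i)`: all adelic anticanonical heights.

Here `S_i` is the tautological subbundle of rank `r_i` of the `i`-th Grassmannian, `1 ≤ r_i < N_i`,
and `Γ` is any group of permutations of the slots (`k_i` slots for every `i`), so that for example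
`Γ = ⊤` gives the tensor products of the symmetric tensors of degree `k_i` in `S_i`, and `Γ = ⊥` all
tensors.  A point of `V` is a family of subspaces `W_i` of dimension `r_i` of `K ^ N_i` together with
`m` tensors `T_1, …, T_m` in `⨂_i W_i ^ ⊗ k_i`, invariant under `Γ`, not all zero, up to a common
scalar.  With `d` the number of orbits of `Γ` on the multi-indices the rank of the bundle is `m d`.
`V` is smooth of Picard number `|I| + 1`, and its anticanonical bundle is `m d` times the line bundle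
`O(1)` plus `∑_i e_i H_i`, where `H_i` is the Plücker bundle and `r_i N_i = r_i e_i + m k_i d`; we
assume that `e_i ≥ 0`, so that the anticanonical bundle is nef.

The number `m` of the tensors is the dimension `∑_i (r_i - 1)` of the product of the projective
spaces of the dual spaces of the `W_i`, on which the `T_j` are multihomogeneous forms.  So over the
algebraic closure they always have common zeros, and for general tensors there are exactly
`(m! / ∏_i (r_i - 1)!) ∏_i k_i ^ (r_i - 1)` of them.  We assume that `k_i ≥ 1` if `r_i ≥ 2`, and that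
`r_i ≤ m` if `k_i = 1`: this says that this number is at least `2`.  The points for which the `m`
tensors have a common rational zero are removed.  They are the images of the rational points of the
variety of the points of `V` with a common zero, which is a projective bundle over a variety of
flags, and is generically finite over `V` of that degree: this is a thin set, which is dense.

For `|I| = 1`, `k = 2`, `r = 2`, `m = 1`, `Γ = ⊤`, `V` is the Hilbert scheme of two points of a
projective space, and the points which remain are the pairs of conjugate points over the quadratic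
fields.

* `Idx k n`: the multi-indices: for every slot of `i` a number less than `n_i`.
* `slots k n Γ`: two multi-indices are equivalent if they differ by an element of `Γ`.
* `minors b`: the Plücker coordinates of the row space of `b`: the determinants of the matrices
  formed by `r` columns of `b`.
* `tensors b q`: the `m` tensors with coordinates `q` in the bases of the `W_i` given by the rows of
  the matrices `b_i`.
* `Invariant Γ q`: the coordinates do not change under the permutations of the slots in `Γ`.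
* `NoZero q`: the `m` forms with coefficients `q` have no common rational zero.
* `OnV m r k Γ K a t`: `a` and `t` are the coordinates of a point of `V(K)`.
* `LocalFactor m r N k Γ φ`: a positive continuous function on `V(K)`, written as a function of the
  coordinate vectors, which does not change if the vectors are multiplied by nonzero scalars.
* `height d e S φ₀ φ P`: the adelic height
  `∏_i H(P_i) ^ e_i H(P_T) ^ (m d) φ₀(P) ∏_{p ∈ S} φ_p(P)`, where `H` is the usual height of a
  rational point of the projective space (of Mathlib).  These are the heights of all adelic metrics on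
  the anticanonical bundle of `V`.

The theorem: for every such height the number of points of height at most `B` of `V(ℚ)` for which
the `m` tensors have no common rational zero is asymptotic to `c B (log B) ^ |I|` with some `c > 0`.
-/

namespace Pool.Agent.Results.MP_1acd66_nt.TensorBundlesThinSets

open Filter Topology

variable {I : Type} [Fintype I] [DecidableEq I] {m : ℕ} {r N k : I → ℕ}

/-- the multi-indices -/
abbrev Idx (k n : I → ℕ) : Type := ∀ i, Fin (k i) → Fin (n i)

/-- multi-indices which differ by a permutation of the slots in `Γ` -/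
def slots (k n : I → ℕ) (Γ : Subgroup (∀ i, Equiv.Perm (Fin (k i)))) : Setoid (Idx k n) where
  r h h' := ∃ σ ∈ Γ, ∀ i s, h' i s = h i (σ i s)
  iseqv := {
    refl := fun h => ⟨1, Γ.one_mem, fun i s => rfl⟩
    symm := by
      rintro h h' ⟨σ, hσ, e⟩
      refine ⟨σ⁻¹, Γ.inv_mem hσ, fun i s => ?_⟩
      rw [e i]
      exact congrArg (h i) (Equiv.apply_symm_apply (σ i) s).symm
    trans := by
      rintro h h' h'' ⟨σ, hσ, e⟩ ⟨τ, hτ, e'⟩
      refine ⟨σ * τ, Γ.mul_mem hσ hτ, fun i s => ?_⟩
      rw [e', e]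
      rfl }

/-- the Plücker coordinates of the row space -/
def minors {r N : ℕ} {K : Type*} [CommRing K] (b : Matrix (Fin r) (Fin N) K) :
    (Fin r → Fin N) → K := fun f => (b.submatrix id f).det

/-- the tensors with coordinates `q` -/
def tensors {K : Type*} [CommRing K] (b : ∀ i, Matrix (Fin (r i)) (Fin (N i)) K)
    (q : Fin m → Idx k r → K) : Fin m × Idx k N → K :=
  fun y => ∑ h : Idx k r, q y.1 h * ∏ i, ∏ s, b i (h i s) (y.2 i s)

/-- the coordinates are invariant under the permutations of the slots in `Γ` -/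
def Invariant {K : Type*} (Γ : Subgroup (∀ i, Equiv.Perm (Fin (k i)))) (q : Fin m → Idx k r → K) :
    Prop := ∀ σ ∈ Γ, ∀ j h, q j (fun i s => h i (σ i s)) = q j h

/-- the forms have no common rational zero -/
def NoZero (q : Fin m → Idx k r → ℚ) : Prop :=
  ∀ x : ∀ i, Fin (r i) → ℚ, (∀ i, x i ≠ 0) → ∃ j, ∑ h : Idx k r, q j h * ∏ i, ∏ s, x i (h i s) ≠ 0

/-- the coordinate vectors of the points of `V(K)` -/
def OnV (m : ℕ) (r k : I → ℕ) (Γ : Subgroup (∀ i, Equiv.Perm (Fin (k i)))) (K : Type*) [Field K]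
    (a : ∀ i, (Fin (r i) → Fin (N i)) → K) (t : Fin m × Idx k N → K) : Prop :=
  (∀ i, a i ≠ 0) ∧ t ≠ 0 ∧ ∃ (b : ∀ i, Matrix (Fin (r i)) (Fin (N i)) K) (q : Fin m → Idx k r → K),
    Invariant Γ q ∧ (∀ i, a i = minors (b i)) ∧ t = tensors b q

/-- positive continuous functions on `V(K)` -/
structure LocalFactor (m : ℕ) (r N k : I → ℕ) (Γ : Subgroup (∀ i, Equiv.Perm (Fin (k i))))
    {K : Type*} [NormedField K]
    (φ : (∀ i, (Fin (r i) → Fin (N i)) → K) → (Fin m × Idx k N → K) → ℝ) : Prop where
  continuous : ContinuousOn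
    (fun x : (∀ i, (Fin (r i) → Fin (N i)) → K) × (Fin m × Idx k N → K) => φ x.1 x.2)
    {x | OnV m r k Γ K x.1 x.2}
  positive : ∀ a t, OnV m r k Γ K a t → 0 < φ a t
  invariant : ∀ a t, OnV m r k Γ K a t → ∀ (c : I → K) (d : K), (∀ i, c i ≠ 0) → d ≠ 0 →
    φ (fun i => c i • a i) (d • t) = φ a t

/-- extension of scalars -/
def ext (K : Type*) [Field K] {J : Type*} (v : J → ℚ) : J → K := fun i => (v i : K)

instance (p : Nat.Primes) : Fact (p : ℕ).Prime := ⟨p.2⟩

/-- the adelic anticanonical height -/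
noncomputable def height (d : ℕ) (e : I → ℕ) (S : Finset Nat.Primes)
    (φ₀ : (∀ i, (Fin (r i) → Fin (N i)) → ℝ) → (Fin m × Idx k N → ℝ) → ℝ)
    (φ : ∀ p : Nat.Primes, (∀ i, (Fin (r i) → Fin (N i)) → ℚ_[p]) → (Fin m × Idx k N → ℚ_[p]) → ℝ)
    (P : (∀ i, Projectivization ℚ ((Fin (r i) → Fin (N i)) → ℚ)) ×
      Projectivization ℚ (Fin m × Idx k N → ℚ)) : ℝ :=
  (∏ i, (P.1 i).mulHeight ^ e i) * P.2.mulHeight ^ (m * d) *
    (φ₀ (fun i => ext ℝ (P.1 i).rep) (ext ℝ P.2.rep) *
      ∏ p ∈ S, φ p (fun i => ext ℚ_[p] (P.1 i).rep) (ext ℚ_[p] P.2.rep))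

/-- the coordinates on the orbits -/
theorem invariant_iff {K : Type*} [CommRing K] {r' : I → ℕ}
    {Γ : Subgroup (∀ i, Equiv.Perm (Fin (k i)))} (q : Fin m → Idx k (fun i => r' i + 1) → K) :
    Invariant Γ q ↔ ∃ q' : Fin m → K6.H78.GN.OI k Γ r' → K, q = fun j h => q' j (K6.H78.GN.mk h) := by
  constructor
  · intro h
    refine ⟨K6.H78.GN.fo (Matrix.of q), ?_⟩
    have h1 : K6.H78.GN.Sm Γ (Matrix.of q) := fun σ hσ j x => h σ hσ j x
    funext j x
    exact (congrFun (congrFun h1.ex_fo j) x).symm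
  · rintro ⟨q', rfl⟩ σ hσ j h
    show q' j (K6.H78.GN.mk _) = q' j (K6.H78.GN.mk h)
    congr 1
    exact (K6.H78.GN.mk_eq.2 ⟨σ, hσ, fun i s => rfl⟩).symm

/-- the points in terms of the coordinates on the orbits -/
theorem onV_iff {K : Type*} [Field K] {r' : I → ℕ} {Γ : Subgroup (∀ i, Equiv.Perm (Fin (k i)))}
    (x : (∀ i, (Fin (r' i + 1) → Fin (N i)) → K) × (Fin m × Idx k N → K)) :
    OnV m (fun i => r' i + 1) k Γ K x.1 x.2 ↔
      x ∈ K6.H78.GN.Cn m r' N k Γ (Equiv.refl _) K := by
  constructor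
  · rintro ⟨h1, h2, b, q, hq, h3, h4⟩
    obtain ⟨q', rfl⟩ := (invariant_iff q).1 hq
    exact ⟨h1, h2, b, q', h3, h4.trans (funext fun y => (K6.H78.GN.tj_apply (Equiv.refl _) q' b y).symm)⟩
  · rintro ⟨h1, h2, b, q', h3, h4⟩
    exact ⟨h1, h2, b, _, (invariant_iff _).2 ⟨q', rfl⟩, h3,
      h4.trans (funext fun y => K6.H78.GN.tj_apply (Equiv.refl _) q' b y)⟩

theorem result (Γ : Subgroup (∀ i, Equiv.Perm (Fin (k i)))) (hr : ∀ i, 1 ≤ r i)
    (hrN : ∀ i, r i < N i) (hm : m = ∑ i, (r i - 1)) (hm0 : 1 ≤ m) (hk : ∀ i, 2 ≤ r i → 1 ≤ k i)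
    (hk' : ∀ i, k i = 1 → r i ≤ m) (d : ℕ) (hd : d = Nat.card (Quotient (slots k r Γ))) (e : I → ℕ)
    (he : ∀ i, r i * N i = r i * e i + m * (k i * d)) (S : Finset Nat.Primes)
    (φ₀ : (∀ i, (Fin (r i) → Fin (N i)) → ℝ) → (Fin m × Idx k N → ℝ) → ℝ)
    (h₀ : LocalFactor m r N k Γ φ₀)
    (φ : ∀ p : Nat.Primes, (∀ i, (Fin (r i) → Fin (N i)) → ℚ_[p]) → (Fin m × Idx k N → ℚ_[p]) → ℝ)
    (h : ∀ p ∈ S, LocalFactor m r N k Γ (φ p)) :
    ∃ c : ℝ, 0 < c ∧ Tendsto (fun B : ℝ =>
      (({P : (∀ i, Projectivization ℚ ((Fin (r i) → Fin (N i)) → ℚ)) ×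
          Projectivization ℚ (Fin m × Idx k N → ℚ) |
        (∃ (b : ∀ i, Matrix (Fin (r i)) (Fin (N i)) ℚ) (q : Fin m → Idx k r → ℚ),
          Invariant Γ q ∧ (∀ i, (P.1 i).rep = minors (b i)) ∧ P.2.rep = tensors b q ∧ NoZero q) ∧
          height d e S φ₀ φ P ≤ B} : Set _).ncard : ℝ) /
        (B * Real.log B ^ (Fintype.card I))) atTop (𝓝 c) := by
  obtain ⟨r', rfl⟩ : ∃ r' : I → ℕ, r = fun i => r' i + 1 :=
    ⟨fun i => r i - 1, funext fun i => (Nat.sub_add_cancel (hr i)).symm⟩
  have hd' : d = Fintype.card (K6.H78.GN.OI k Γ r') := by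
    rw [hd, ← Nat.card_eq_fintype_card]
    rfl
  subst hd'
  obtain ⟨c, hc, hlim⟩ := K6.H78.GN.main_Nt' hrN hm.symm hm0 (fun i hi => hk i (Nat.succ_le_succ hi))
    hk' he (Equiv.refl _) S φ₀
    ⟨(h₀.1).mono fun x hx => (onV_iff x).2 hx, fun x hx => h₀.2 _ _ ((onV_iff x).2 hx),
      fun x hx => h₀.3 _ _ ((onV_iff x).2 hx)⟩ φ
    fun p hp => ⟨((h p hp).1).mono fun x hx => (onV_iff x).2 hx,
      fun x hx => (h p hp).2 _ _ ((onV_iff x).2 hx), fun x hx => (h p hp).3 _ _ ((onV_iff x).2 hx)⟩
  refine ⟨c, hc, hlim.congr fun B => ?_⟩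
  congr 3
  ext P
  refine and_congr ?_ Iff.rfl
  constructor
  · rintro ⟨b, q', h1, h2, h3⟩
    exact ⟨b, _, (invariant_iff _).2 ⟨q', rfl⟩, h1,
      h2.trans (funext fun y => K6.H78.GN.tj_apply (Equiv.refl _) q' b y), h3⟩
  · rintro ⟨b, q, hq, h1, h2, h3⟩
    obtain ⟨q', rfl⟩ := (invariant_iff q).1 hq
    exact ⟨b, q', h1, h2.trans (funext fun y => (K6.H78.GN.tj_apply (Equiv.refl _) q' b y).symm), h3⟩

end Pool.Agent.Results.MP_1acd66_nt.TensorBundlesThinSets
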